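import Mathlib

set_option autoImplicit false

/-! The Banach algebra `c ⋉ ℓ¹`. -/

namespace Pool.Agent.WBD

open scoped BigOperators

/-- convergent sequences -/
abbrev CC : Type := C(OnePoint ℕ, ℂ)

/-- absolutely summable sequences -/
abbrev LL : Type := lp (fun _ : ℕ => ℂ) 1

/-- the underlying Banach space -/
def AA : Type := WithLp 1 (CC × LL)

noncomputable instance : NormedAddCommGroup AA :=
  inferInstanceAs (NormedAddCommGroup (WithLp 1 (CC × LL)))
noncomputable instance : NormedSpace ℂ AA :=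
  inferInstanceAs (NormedSpace ℂ (WithLp 1 (CC × LL)))
instance : CompleteSpace AA := inferInstanceAs (CompleteSpace (WithLp 1 (CC × LL)))

namespace AA

/-- first coordinate -/
def p (x : AA) : CC := WithLp.fst (p := 1) x
/-- second coordinate -/
def q (x : AA) : LL := WithLp.snd (p := 1) x
/-- constructor -/
def mk (a : CC) (u : LL) : AA := WithLp.toLp 1 (a, u)

@[simp] theorem p_mk (a : CC) (u : LL) : (mk a u).p = a := rfl
@[simp] theorem q_mk (a : CC) (u : LL) : (mk a u).q = u := rfl
@[simp] theorem p_add (x y : AA) : (x + y).p = x.p + y.p := rfl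
@[simp] theorem q_add (x y : AA) : (x + y).q = x.q + y.q := rfl
@[simp] theorem p_sub (x y : AA) : (x - y).p = x.p - y.p := rfl
@[simp] theorem q_sub (x y : AA) : (x - y).q = x.q - y.q := rfl
@[simp] theorem p_neg (x : AA) : (-x).p = -x.p := rfl
@[simp] theorem q_neg (x : AA) : (-x).q = -x.q := rfl
@[simp] theorem p_zero : (0 : AA).p = 0 := rfl
@[simp] theorem q_zero : (0 : AA).q = 0 := rfl
@[simp] theorem p_smul (c : ℂ) (x : AA) : (c • x).p = c • x.p := rfl
@[simp] theorem q_smul (c : ℂ) (x : AA) : (c • x).q = c • x.q := rfl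

theorem norm_def (x : AA) : ‖x‖ = ‖x.p‖ + ‖x.q‖ :=
  WithLp.prod_norm_eq_of_L1 (α := CC) (β := LL) x

theorem ext' {x y : AA} (h1 : x.p = y.p) (h2 : ∀ n, x.q n = y.q n) : x = y := by
  have h3 : x.q = y.q := by
    ext n
    exact h2 n
  have hx : x = mk x.p x.q := rfl
  have hy : y = mk y.p y.q := rfl
  rw [hx, hy, h1, h3]

end AA

/-- pointwise multiplication `ℓ^∞ × ℓ¹ → ℓ¹` -/
noncomputable def mulL (w : ℕ → ℂ) (C : ℝ) (h : ∀ n, ‖w n‖ ≤ C) (u : LL) : LL :=
  ⟨fun n => w n * u n, by
    have hu := lp.memℓp u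
    rw [memℓp_gen_iff (by simp)] at hu
    refine memℓp_gen ?_
    simp only [ENNReal.toReal_one, Real.rpow_one] at hu ⊢
    refine Summable.of_nonneg_of_le (fun n => norm_nonneg _) (fun n => ?_) (hu.mul_left C)
    rw [norm_mul]
    exact mul_le_mul_of_nonneg_right (h n) (norm_nonneg _)⟩

@[simp] theorem mulL_apply (w : ℕ → ℂ) (C : ℝ) (h : ∀ n, ‖w n‖ ≤ C) (u : LL) (n : ℕ) :
    mulL w C h u n = w n * u n := rfl

theorem norm_LL (u : LL) : ‖u‖ = ∑' n, ‖u n‖ := by
  rw [lp.norm_eq_tsum_rpow (by simp)]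
  simp

theorem summable_LL (u : LL) : Summable fun n => ‖u n‖ := by
  have hu := lp.memℓp u
  rw [memℓp_gen_iff (by simp)] at hu
  simpa using hu

theorem norm_mulL (w : ℕ → ℂ) (C : ℝ) (h : ∀ n, ‖w n‖ ≤ C) (u : LL) :
    ‖mulL w C h u‖ ≤ C * ‖u‖ := by
  rw [norm_LL, norm_LL, ← tsum_mul_left]
  refine Summable.tsum_le_tsum (fun n => ?_) (summable_LL _) ((summable_LL u).mul_left C)
  rw [mulL_apply, norm_mul]
  exact mul_le_mul_of_nonneg_right (h n) (norm_nonneg _)

/-- evaluation at `n` -/
noncomputable def ev (a : CC) (n : ℕ) : ℂ := a (n : OnePoint ℕ)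

theorem ev_bound (a : CC) (n : ℕ) : ‖ev a n‖ ≤ ‖a‖ := a.norm_coe_le_norm _

theorem LL_bound (u : LL) (n : ℕ) : ‖u n‖ ≤ ‖u‖ := lp.norm_apply_le_norm (by simp) u n

@[simp] theorem ev_add (a b : CC) (n : ℕ) : ev (a + b) n = ev a n + ev b n := rfl
@[simp] theorem ev_mul (a b : CC) (n : ℕ) : ev (a * b) n = ev a n * ev b n := rfl
@[simp] theorem ev_one (n : ℕ) : ev 1 n = 1 := rfl
@[simp] theorem ev_zero (n : ℕ) : ev 0 n = 0 := rfl
@[simp] theorem ev_smul (c : ℂ) (a : CC) (n : ℕ) : ev (c • a) n = c * ev a n := rfl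
@[simp] theorem LL_add (a b : LL) (n : ℕ) : (a + b) n = a n + b n := rfl
@[simp] theorem LL_zero (n : ℕ) : (0 : LL) n = 0 := rfl
@[simp] theorem LL_smul (c : ℂ) (a : LL) (n : ℕ) : (c • a) n = c * a n := rfl

namespace AA

/-- the product -/
noncomputable def mul' (x y : AA) : AA :=
  mk (x.p * y.p)
    (mulL (ev x.p) ‖x.p‖ (ev_bound x.p) y.q + mulL (ev y.p) ‖y.p‖ (ev_bound y.p) x.q
      + mulL (fun n => x.q n) ‖x.q‖ (LL_bound x.q) y.q)

noncomputable instance : Mul AA := ⟨mul'⟩
noncomputable instance : One AA := ⟨mk 1 0⟩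

@[simp] theorem p_mul (x y : AA) : (x * y).p = x.p * y.p := rfl
@[simp] theorem q_mul (x y : AA) (n : ℕ) :
    (x * y).q n = ev x.p n * y.q n + ev y.p n * x.q n + x.q n * y.q n := rfl
@[simp] theorem p_one : (1 : AA).p = 1 := rfl
@[simp] theorem q_one : (1 : AA).q = 0 := rfl

theorem norm_mul_le' (x y : AA) : ‖x * y‖ ≤ ‖x‖ * ‖y‖ := by
  rw [norm_def, norm_def x, norm_def y]
  have h1 : ‖(x * y).p‖ ≤ ‖x.p‖ * ‖y.p‖ := norm_mul_le _ _
  have h2 : ‖(x * y).q‖ ≤ ‖x.p‖ * ‖y.q‖ + ‖y.p‖ * ‖x.q‖ + ‖x.q‖ * ‖y.q‖ := by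
    change ‖_ + _ + _‖ ≤ _
    refine (norm_add₃_le).trans ?_
    gcongr
    · exact norm_mulL _ _ _ _
    · exact norm_mulL _ _ _ _
    · exact norm_mulL _ _ _ _
  nlinarith [h1, h2]

noncomputable instance : CommRing AA :=
  { (inferInstance : AddCommGroup AA), (inferInstance : Mul AA), (inferInstance : One AA) with
    mul_assoc := fun x y z => by
      apply ext'
      · simp [mul_assoc]
      · intro n; simp; ring
    one_mul := fun x => by
      apply ext'
      · simp
      · intro n; simp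
    mul_one := fun x => by
      apply ext'
      · simp
      · intro n; simp
    left_distrib := fun x y z => by
      apply ext'
      · simp [mul_add]
      · intro n; simp; ring
    right_distrib := fun x y z => by
      apply ext'
      · simp [add_mul]
      · intro n; simp; ring
    zero_mul := fun x => by
      apply ext'
      · simp
      · intro n; simp
    mul_zero := fun x => by
      apply ext'
      · simp
      · intro n; simp
    mul_comm := fun x y => by
      apply ext'
      · simp [mul_comm]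
      · intro n; simp; ring }

noncomputable instance : NormedCommRing AA :=
  { (inferInstance : NormedAddCommGroup AA), (inferInstance : CommRing AA) with
    norm_mul_le := norm_mul_le' }

noncomputable instance : Algebra ℂ AA :=
  Algebra.ofModule
    (fun c x y => by
      apply ext'
      · simp
      · intro n; simp; ring)
    (fun c x y => by
      apply ext'
      · simp
      · intro n; simp; ring)

noncomputable instance : NormedAlgebra ℂ AA :=
  { (inferInstance : Algebra ℂ AA) with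
    norm_smul_le := fun c x => norm_smul_le c x }

end AA

end Pool.Agent.WBD
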