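import Mathlib

set_option autoImplicit false

/-! Bounding a diagonal sum of a bilinear map by averaging over signs. -/

namespace Pool.Agent.WBD

open scoped BigOperators

theorem sign_bound {V X : Type*} [AddCommGroup V] [Module ℂ V] [NormedAddCommGroup X]
    [NormedSpace ℂ X] {ι : Type*} [DecidableEq ι] (B : V →ₗ[ℂ] V →ₗ[ℂ] X) (c : ι → V) (M : ℝ)
    (s : Finset ι) :
    ∀ (y : V), (∀ ε : ι → ℂ, (∀ i, ε i = 1 ∨ ε i = -1) →
      ‖B (y + ∑ i ∈ s, ε i • c i) (y + ∑ i ∈ s, ε i • c i)‖ ≤ M) →
      ‖B y y + ∑ i ∈ s, B (c i) (c i)‖ ≤ M := by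
  induction s using Finset.induction_on with
  | empty =>
    intro y h
    have := h (fun _ => 1) (fun _ => Or.inl rfl)
    simpa using this
  | insert k s hk ih =>
    intro y h
    have h1 : ‖B (y + c k) (y + c k) + ∑ i ∈ s, B (c i) (c i)‖ ≤ M := by
      apply ih
      intro ε hε
      have := h (Function.update ε k 1) (by
        intro i
        by_cases hik : i = k
        · subst hik; simp
        · simp [Function.update_of_ne hik, hε i])
      rw [Finset.sum_insert hk, Function.update_self, one_smul, ← add_assoc] at this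
      rw [Finset.sum_congr rfl (g := fun i => ε i • c i)] at this
      · exact this
      · intro i hi
        have : i ≠ k := fun h => hk (h ▸ hi)
        rw [Function.update_of_ne this]
    have h2 : ‖B (y - c k) (y - c k) + ∑ i ∈ s, B (c i) (c i)‖ ≤ M := by
      apply ih
      intro ε hε
      have := h (Function.update ε k (-1)) (by
        intro i
        by_cases hik : i = k
        · subst hik; simp
        · simp [Function.update_of_ne hik, hε i])
      rw [Finset.sum_insert hk, Function.update_self, neg_smul, one_smul, ← add_assoc,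
        ← sub_eq_add_neg] at this
      rw [Finset.sum_congr rfl (g := fun i => ε i • c i)] at this
      · exact this
      · intro i hi
        have : i ≠ k := fun h => hk (h ▸ hi)
        rw [Function.update_of_ne this]
    have h3 : B y y + ∑ i ∈ insert k s, B (c i) (c i) =
        (2⁻¹ : ℂ) • ((B (y + c k) (y + c k) + ∑ i ∈ s, B (c i) (c i)) +
          (B (y - c k) (y - c k) + ∑ i ∈ s, B (c i) (c i))) := by
      rw [Finset.sum_insert hk]
      simp only [map_add, map_sub, LinearMap.add_apply, LinearMap.sub_apply]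
      module
    rw [h3, norm_smul]
    have : ‖(2⁻¹ : ℂ)‖ = 2⁻¹ := by simp
    rw [this]
    have := norm_add_le (B (y + c k) (y + c k) + ∑ i ∈ s, B (c i) (c i))
      (B (y - c k) (y - c k) + ∑ i ∈ s, B (c i) (c i))
    linarith

/-- version for sums over a finite type -/
theorem sign_bound_univ {V X : Type*} [AddCommGroup V] [Module ℂ V] [NormedAddCommGroup X]
    [NormedSpace ℂ X] {ι : Type*} [DecidableEq ι] [Fintype ι] (B : V →ₗ[ℂ] V →ₗ[ℂ] X)
    (c : ι → V) (M : ℝ)
    (h : ∀ ε : ι → ℂ, (∀ i, ε i = 1 ∨ ε i = -1) →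
      ‖B (∑ i, ε i • c i) (∑ i, ε i • c i)‖ ≤ M) :
    ‖∑ i, B (c i) (c i)‖ ≤ M := by
  have := sign_bound B c M Finset.univ 0 (by simpa using h)
  simpa using this

end Pool.Agent.WBD
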