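import Mathlib
import Pool.Agent.WBD.Sign

set_option autoImplicit false

/-! Killing a bounded 2-cocycle on a finite level, with constants independent of the level. -/

namespace Pool.Agent.WBD

open scoped BigOperators

variable {A X : Type*} [NormedCommRing A] [NormedAlgebra ℂ A] [NormedAddCommGroup X]
  [NormedSpace ℂ X]

/-- the coboundary of a bounded 1-cochain -/
noncomputable def delta (l r : A →L[ℂ] X →L[ℂ] X) (S : A →L[ℂ] X) : A →L[ℂ] A →L[ℂ] X :=
  LinearMap.mkContinuous₂
    (LinearMap.mk₂ ℂ (fun a b => l a (S b) - S (a * b) + r b (S a))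
      (by intro a b c; simp only [map_add, add_mul, ContinuousLinearMap.add_apply]; abel)
      (by intro c a b; simp only [map_smul, smul_mul_assoc, ContinuousLinearMap.smul_apply]
          module)
      (by intro a b c; simp only [map_add, mul_add, ContinuousLinearMap.add_apply]; abel)
      (by intro c a b; simp only [map_smul, mul_smul_comm, ContinuousLinearMap.smul_apply]
          module))
    ((‖l‖ + 1 + ‖r‖) * ‖S‖)
    (by
      intro a b
      simp only [LinearMap.mk₂_apply]
      have h1 : ‖l a (S b)‖ ≤ ‖l‖ * ‖a‖ * (‖S‖ * ‖b‖) :=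
        (l.le_opNorm₂ a (S b)).trans
          (mul_le_mul_of_nonneg_left (S.le_opNorm b) (by positivity))
      have h2 : ‖S (a * b)‖ ≤ ‖S‖ * (‖a‖ * ‖b‖) :=
        (S.le_opNorm (a * b)).trans (mul_le_mul_of_nonneg_left (norm_mul_le a b) (by positivity))
      have h3 : ‖r b (S a)‖ ≤ ‖r‖ * ‖b‖ * (‖S‖ * ‖a‖) :=
        (r.le_opNorm₂ b (S a)).trans
          (mul_le_mul_of_nonneg_left (S.le_opNorm a) (by positivity))
      calc ‖l a (S b) - S (a * b) + r b (S a)‖
          ≤ ‖l a (S b)‖ + ‖S (a * b)‖ + ‖r b (S a)‖ :=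
            (norm_add_le _ _).trans (add_le_add (norm_sub_le _ _) le_rfl)
        _ ≤ ‖l‖ * ‖a‖ * (‖S‖ * ‖b‖) + ‖S‖ * (‖a‖ * ‖b‖) + ‖r‖ * ‖b‖ * (‖S‖ * ‖a‖) := by
            gcongr
        _ = (‖l‖ + 1 + ‖r‖) * ‖S‖ * ‖a‖ * ‖b‖ := by ring)

@[simp] theorem delta_apply (l r : A →L[ℂ] X →L[ℂ] X) (S : A →L[ℂ] X) (a b : A) :
    delta l r S a b = l a (S b) - S (a * b) + r b (S a) := rfl

theorem norm_delta_le (l r : A →L[ℂ] X →L[ℂ] X) (S : A →L[ℂ] X) :
    ‖delta l r S‖ ≤ (‖l‖ + 1 + ‖r‖) * ‖S‖ :=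
  LinearMap.mkContinuous₂_norm_le _ (by positivity) _

/-- commuting bounded left and right actions -/
structure IsBi (l r : A →L[ℂ] X →L[ℂ] X) : Prop where
  hl : ∀ a b x, l (a * b) x = l a (l b x)
  hr : ∀ a b x, r (a * b) x = r b (r a x)
  hlr : ∀ a b x, l a (r b x) = r b (l a x)

/-- bounded 2-cocycles -/
def IsCo (l r : A →L[ℂ] X →L[ℂ] X) (T : A →L[ℂ] A →L[ℂ] X) : Prop :=
  ∀ a b c, l a (T b c) - T (a * b) c + T a (b * c) - r c (T a b) = 0

variable {l r : A →L[ℂ] X →L[ℂ] X}

theorem IsBi.co_delta (h : IsBi l r) (S : A →L[ℂ] X) : IsCo l r (delta l r S) := by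
  intro a b c
  simp only [delta_apply, map_add, map_sub]
  rw [h.hl, h.hlr a c (S b), mul_comm b c, h.hr c b]
  rw [show a * b * c = a * (c * b) by ring]
  have : r b (r c (S a)) = r c (r b (S a)) := by rw [← h.hr, ← h.hr, mul_comm]
  rw [this]
  abel

theorem IsCo.sub {T T' : A →L[ℂ] A →L[ℂ] X} (h : IsCo l r T) (h' : IsCo l r T') :
    IsCo l r (T - T') := by
  intro a b c
  have h1 := h a b c
  have h2 := h' a b c
  simp only [ContinuousLinearMap.sub_apply, map_sub]
  have : ∀ (p q s t p' q' s' t' : X), p - q + s - t = 0 → p' - q' + s' - t' = 0 →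
      p - p' - (q - q') + (s - s') - (t - t') = 0 := by
    intro p q s t p' q' s' t' e1 e2
    have : p - p' - (q - q') + (s - s') - (t - t') =
      (p - q + s - t) - (p' - q' + s' - t') := by abel
    rw [this, e1, e2, sub_zero]
  exact this _ _ _ _ _ _ _ _ h1 h2

section level

variable {ι : Type*} [Fintype ι] [DecidableEq ι]

/-- a complete finite family of orthogonal idempotents, with sign sums in the unit ball -/
structure IsRes (e : ι → A) : Prop where
  idem : ∀ i, e i * e i = e i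
  orth : ∀ i k, i ≠ k → e i * e k = 0
  tot : ∑ i, e i = 1
  sgn : ∀ ε : ι → ℂ, (∀ i, ε i = 1 ∨ ε i = -1) → ‖∑ i, ε i • e i‖ ≤ 1

theorem left_norm (h : IsBi l r) {f : A →L[ℂ] A →L[ℂ] X} (hf : IsCo l r f)
    (hu : ∀ a b, l 1 (f a b) = f a b) {e : ι → A} (he : IsRes e) :
    ∃ g : A →L[ℂ] X, ‖g‖ ≤ ‖l‖ * ‖f‖ ∧ (∀ k a, f (e k) a = delta l r g (e k) a) ∧
      ∀ a, g a = ∑ i, l (e i) (f (e i) a) := by
  refine ⟨∑ i, (l (e i)).comp (f (e i)), ?_, ?_, ?_⟩
  · refine ContinuousLinearMap.opNorm_le_bound _ (by positivity) ?_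
    intro a
    have hsum : (∑ i, (l (e i)).comp (f (e i))) a = ∑ i, l (e i) (f (e i) a) := by
      simp [ContinuousLinearMap.sum_apply]
    rw [hsum]
    let B : A →ₗ[ℂ] A →ₗ[ℂ] X := LinearMap.mk₂ ℂ (fun c c' => l c (f c' a))
      (by intro x y z; simp) (by intro x y z; simp) (by intro x y z; simp)
      (by intro x y z; simp)
    have := sign_bound_univ B e (‖l‖ * ‖f‖ * ‖a‖) (by
      intro ε hε
      have h1 := he.sgn ε hε
      change ‖l _ (f _ a)‖ ≤ _
      refine (l.le_opNorm₂ _ _).trans ?_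
      calc ‖l‖ * ‖∑ i, ε i • e i‖ * ‖f (∑ i, ε i • e i) a‖
          ≤ ‖l‖ * 1 * (‖f‖ * 1 * ‖a‖) := by
            gcongr
            refine (f.le_opNorm₂ _ _).trans ?_
            gcongr
        _ = ‖l‖ * ‖f‖ * ‖a‖ := by ring)
    exact this
  · intro k a
    simp only [delta_apply, ContinuousLinearMap.sum_apply, ContinuousLinearMap.comp_apply,
      map_sum]
    have e1 : ∑ i, l (e k) (l (e i) (f (e i) a)) = l (e k) (f (e k) a) := by
      rw [Finset.sum_eq_single k]
      · rw [← h.hl, he.idem]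
      · intro i _ hi
        rw [← h.hl, he.orth k i (Ne.symm hi)]
        simp
      · simp
    have e2 : ∀ i, l (e i) (f (e i) (e k * a)) =
        l (e i) (f (e i * e k) a) + r a (l (e i) (f (e i) (e k))) - l (e i) (f (e k) a) := by
      intro i
      have := hf (e i) (e k) a
      have h2 : f (e i) (e k * a) = f (e i * e k) a + r a (f (e i) (e k)) -
          l (e i) (f (e k) a) := by
        have h3 : f (e i) (e k * a) = (l (e i) (f (e k) a) - f (e i * e k) a +
          f (e i) (e k * a) - r a (f (e i) (e k))) + f (e i * e k) a + r a (f (e i) (e k)) -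
          l (e i) (f (e k) a) := by abel
        rw [h3, this]; abel
      rw [h2, map_sub, map_add, h.hlr, ← h.hl, he.idem]
    have e3 : ∑ i, l (e i) (f (e i * e k) a) = l (e k) (f (e k) a) := by
      rw [Finset.sum_eq_single k]
      · rw [he.idem]
      · intro i _ hi
        rw [he.orth i k hi]
        simp
      · simp
    have e4 : ∑ i, l (e i) (f (e k) a) = f (e k) a := by
      rw [← ContinuousLinearMap.sum_apply, ← map_sum, he.tot, hu]
    rw [e1, Finset.sum_congr rfl (fun i _ => e2 i), Finset.sum_sub_distrib,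
      Finset.sum_add_distrib, e3, e4]
    abel
  · intro a
    simp [ContinuousLinearMap.sum_apply]

theorem right_norm (h : IsBi l r) {f : A →L[ℂ] A →L[ℂ] X} (hf : IsCo l r f)
    (hu : ∀ a b, r 1 (f a b) = f a b) {e : ι → A} (he : IsRes e)
    (h0 : ∀ k a, f (e k) a = 0) :
    ∃ g : A →L[ℂ] X, ‖g‖ ≤ ‖r‖ * ‖f‖ ∧ (∀ a k, f a (e k) = delta l r g a (e k)) ∧
      (∀ k a, delta l r g (e k) a = 0) := by
  have hlf : ∀ k a b, f (e k * a) b = l (e k) (f a b) := by
    intro k a b
    have := hf (e k) a b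
    rw [h0, h0, map_zero, sub_zero, add_zero, sub_eq_zero] at this
    exact this.symm
  refine ⟨∑ i, (r (e i)).comp (f.flip (e i)), ?_, ?_, ?_⟩
  · refine ContinuousLinearMap.opNorm_le_bound _ (by positivity) ?_
    intro a
    have hsum : (∑ i, (r (e i)).comp (f.flip (e i))) a = ∑ i, r (e i) (f a (e i)) := by
      simp [ContinuousLinearMap.sum_apply]
    rw [hsum]
    let B : A →ₗ[ℂ] A →ₗ[ℂ] X := LinearMap.mk₂ ℂ (fun c c' => r c (f a c'))
      (by intro x y z; simp) (by intro x y z; simp) (by intro x y z; simp)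
      (by intro x y z; simp)
    have := sign_bound_univ B e (‖r‖ * ‖f‖ * ‖a‖) (by
      intro ε hε
      have h1 := he.sgn ε hε
      change ‖r _ (f a _)‖ ≤ _
      refine (r.le_opNorm₂ _ _).trans ?_
      calc ‖r‖ * ‖∑ i, ε i • e i‖ * ‖f a (∑ i, ε i • e i)‖
          ≤ ‖r‖ * 1 * (‖f‖ * ‖a‖ * 1) := by
            gcongr
            refine (f.le_opNorm₂ _ _).trans ?_
            gcongr
        _ = ‖r‖ * ‖f‖ * ‖a‖ := by ring)
    exact this
  · intro a k
    simp only [delta_apply, ContinuousLinearMap.sum_apply, ContinuousLinearMap.comp_apply,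
      ContinuousLinearMap.flip_apply, map_sum]
    have e0 : ∑ i, l a (r (e i) (f (e k) (e i))) = 0 := by
      apply Finset.sum_eq_zero
      intro i _
      rw [h0]; simp
    have e1 : ∑ i, r (e k) (r (e i) (f a (e i))) = r (e k) (f a (e k)) := by
      rw [Finset.sum_eq_single k]
      · rw [← h.hr, he.idem]
      · intro i _ hi
        rw [← h.hr, he.orth i k hi]
        simp
      · simp
    have e2 : ∀ i, r (e i) (f (a * e k) (e i)) =
        r (e i) (f a (e k * e i)) - r (e i) (f a (e k)) := by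
      intro i
      have := hf a (e k) (e i)
      rw [h0, map_zero, zero_sub] at this
      have h2 : f (a * e k) (e i) = f a (e k * e i) - r (e i) (f a (e k)) := by
        have h3 : f (a * e k) (e i) = f a (e k * e i) - r (e i) (f a (e k)) -
          (-(f (a * e k) (e i)) + f a (e k * e i) - r (e i) (f a (e k))) := by abel
        rw [h3, this, sub_zero]
      rw [h2, map_sub, ← h.hr, he.idem]
    have e3 : ∑ i, r (e i) (f a (e k * e i)) = r (e k) (f a (e k)) := by
      rw [Finset.sum_eq_single k]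
      · rw [he.idem]
      · intro i _ hi
        rw [he.orth k i (Ne.symm hi)]
        simp
      · simp
    have e4 : ∑ i, r (e i) (f a (e k)) = f a (e k) := by
      rw [← ContinuousLinearMap.sum_apply, ← map_sum, he.tot, hu]
    rw [e0, e1, Finset.sum_congr rfl (fun i _ => e2 i), Finset.sum_sub_distrib, e3, e4]
    abel
  · intro k a
    simp only [delta_apply, ContinuousLinearMap.sum_apply, ContinuousLinearMap.comp_apply,
      ContinuousLinearMap.flip_apply, map_sum]
    have e0 : ∑ i, r a (r (e i) (f (e k) (e i))) = 0 := by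
      apply Finset.sum_eq_zero
      intro i _
      rw [h0]; simp
    have e1 : ∑ i, l (e k) (r (e i) (f a (e i))) = ∑ i, r (e i) (f (e k * a) (e i)) := by
      apply Finset.sum_congr rfl
      intro i _
      rw [hlf k a (e i), ← h.hlr]
    rw [e0, e1]
    simp

/-- the idempotents below the blocks, and coordinates -/
structure IsBlk (e j : ι → A) (u : ι → A →L[ℂ] ℂ) : Prop where
  je : ∀ i, j i * e i = j i
  jj : ∀ i, j i * j i = j i
  jn : ∀ i, ‖j i‖ ≤ 1
  ue : ∀ i k, u i (e k) = 0
  uj : ∀ i k, i ≠ k → u i (j k) = 0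
  uu : ∀ k, u k (j k) = 1 ∨ j k = 0
  un : ∀ a, ∑ i, ‖u i a‖ ≤ ‖a‖

theorem diag_solve (h : IsBi l r) {f : A →L[ℂ] A →L[ℂ] X} (hf : IsCo l r f)
    {e j : ι → A} {u : ι → A →L[ℂ] ℂ} (he : IsRes e) (hb : IsBlk e j u)
    (h0 : ∀ k a, f (e k) a = 0) (h0' : ∀ a k, f a (e k) = 0) :
    ∃ g : A →L[ℂ] X, ‖g‖ ≤ (2 * ‖l‖ + 1) * ‖f‖ ∧
      (∀ i k, f (e i) (e k) = delta l r g (e i) (e k)) ∧
      (∀ i k, f (e i) (j k) = delta l r g (e i) (j k)) ∧
      (∀ i k, f (j i) (e k) = delta l r g (j i) (e k)) ∧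
      (∀ i k, f (j i) (j k) = delta l r g (j i) (j k)) := by
  have hlf : ∀ k a b, f (e k * a) b = l (e k) (f a b) := by
    intro k a b
    have := hf (e k) a b
    rw [h0, h0, map_zero, sub_zero, add_zero, sub_eq_zero] at this
    exact this.symm
  have hrf : ∀ k a b, f a (b * e k) = r (e k) (f a b) := by
    intro k a b
    have := hf a b (e k)
    rw [h0', h0', map_zero, sub_zero, zero_add, sub_eq_zero] at this
    exact this
  have hmf : ∀ k a b, f (a * e k) b = f a (e k * b) := by
    intro k a b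
    have := hf a (e k) b
    rw [h0, h0', map_zero, map_zero, sub_zero, zero_sub] at this
    have h2 : f (a * e k) b = f a (e k * b) - (-(f (a * e k) b) + f a (e k * b)) := by abel
    rw [h2, this, sub_zero]
  -- the diagonal values
  set x : ι → X := fun i => f (j i) (j i) with hx
  have hej : ∀ i, e i * j i = j i := fun i => by rw [mul_comm, hb.je]
  have hejo : ∀ i k, i ≠ k → e i * j k = 0 := by
    intro i k hik
    rw [← hej k, ← mul_assoc, he.orth i k hik, zero_mul]
  have hjjo : ∀ i k, i ≠ k → j i * j k = 0 := by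
    intro i k hik
    rw [← hb.je i, mul_assoc, hejo i k hik, mul_zero]
  have lex : ∀ i, l (e i) (x i) = x i := by
    intro i
    rw [hx]; dsimp only
    rw [← hlf, hej]
  have rex : ∀ i, r (e i) (x i) = x i := by
    intro i
    rw [hx]; dsimp only
    rw [← hrf, hb.je]
  have lrx : ∀ i, r (j i) (x i) = l (j i) (x i) := by
    intro i
    have := hf (j i) (j i) (j i)
    rw [hb.jj] at this
    rw [hx]; dsimp only
    have h2 : r (j i) (f (j i) (j i)) = l (j i) (f (j i) (j i)) -
      (l (j i) (f (j i) (j i)) - f (j i) (j i) + f (j i) (j i) - r (j i) (f (j i) (j i))) := by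
      abel
    rw [h2, this, sub_zero]
  set d : ι → X := fun i => (2 : ℂ) • l (j i) (x i) - x i with hd
  have led : ∀ i, l (e i) (d i) = d i := by
    intro i
    simp only [hd, map_sub, map_smul]
    rw [← h.hl, hej, lex]
  have red : ∀ i, r (e i) (d i) = d i := by
    intro i
    simp only [hd, map_sub, map_smul]
    rw [← h.hlr, rex]
  have ledo : ∀ i k, i ≠ k → l (e i) (d k) = 0 := by
    intro i k hik
    rw [← led k, ← h.hl, he.orth i k hik]; simp
  have redo' : ∀ i k, i ≠ k → r (e i) (d k) = 0 := by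
    intro i k hik
    rw [← red k, ← h.hr, he.orth k i (Ne.symm hik)]; simp
  have ljdo : ∀ i k, i ≠ k → l (j i) (d k) = 0 := by
    intro i k hik
    rw [← hb.je i, h.hl, ledo i k hik, map_zero]
  have rjdo : ∀ i k, i ≠ k → r (j i) (d k) = 0 := by
    intro i k hik
    rw [← hej i, h.hr, redo' i k hik, map_zero]
  have key : ∀ i, l (j i) (d i) - d i + r (j i) (d i) = x i := by
    intro i
    have e1 : l (j i) (d i) = l (j i) (x i) := by
      simp only [hd, map_sub, map_smul]
      rw [← h.hl, hb.jj]; module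
    have e2 : r (j i) (d i) = l (j i) (x i) := by
      simp only [hd, map_sub, map_smul]
      rw [← h.hlr, lrx, ← h.hl, hb.jj]; module
    rw [e1, e2]
    simp only [hd]; module
  have hdz : ∀ i, j i = 0 → d i = 0 := by
    intro i hi
    simp [hd, hx, hi]
  set g : A →L[ℂ] X := ∑ i, (u i).smulRight (d i) with hg
  have gapp : ∀ a, g a = ∑ i, u i a • d i := by
    intro a
    simp [hg, ContinuousLinearMap.sum_apply]
  have ge : ∀ k, g (e k) = 0 := by
    intro k
    rw [gapp]
    apply Finset.sum_eq_zero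
    intro i _
    rw [hb.ue, zero_smul]
  have gj : ∀ k, g (j k) = d k := by
    intro k
    rw [gapp, Finset.sum_eq_single k]
    · rcases hb.uu k with h1 | h1
      · rw [h1, one_smul]
      · rw [hdz k h1, smul_zero]
    · intro i _ hi
      rw [hb.uj i k hi, zero_smul]
    · simp
  refine ⟨g, ?_, ?_, ?_, ?_, ?_⟩
  · refine ContinuousLinearMap.opNorm_le_bound _ (by positivity) ?_
    intro a
    rw [gapp]
    have hdn : ∀ i, ‖d i‖ ≤ (2 * ‖l‖ + 1) * ‖f‖ := by
      intro i
      have hxn : ‖x i‖ ≤ ‖f‖ := by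
        refine (f.le_opNorm₂ _ _).trans ?_
        have := hb.jn i
        calc ‖f‖ * ‖j i‖ * ‖j i‖ ≤ ‖f‖ * 1 * 1 := by gcongr
          _ = ‖f‖ := by ring
      have h1 : ‖l (j i) (x i)‖ ≤ ‖l‖ * ‖f‖ := by
        refine (l.le_opNorm₂ _ _).trans ?_
        have := hb.jn i
        calc ‖l‖ * ‖j i‖ * ‖x i‖ ≤ ‖l‖ * 1 * ‖f‖ := by gcongr
          _ = _ := by ring
      calc ‖d i‖ ≤ ‖(2 : ℂ) • l (j i) (x i)‖ + ‖x i‖ := norm_sub_le _ _
        _ ≤ 2 * (‖l‖ * ‖f‖) + ‖f‖ := by
            rw [norm_smul]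
            have : ‖(2 : ℂ)‖ = 2 := by simp
            rw [this]
            gcongr
        _ = _ := by ring
    calc ‖∑ i, u i a • d i‖ ≤ ∑ i, ‖u i a • d i‖ := norm_sum_le _ _
      _ ≤ ∑ i, ‖u i a‖ * ((2 * ‖l‖ + 1) * ‖f‖) := by
          apply Finset.sum_le_sum
          intro i _
          rw [norm_smul]
          have := hdn i
          gcongr
      _ = (∑ i, ‖u i a‖) * ((2 * ‖l‖ + 1) * ‖f‖) := by rw [Finset.sum_mul]
      _ ≤ ‖a‖ * ((2 * ‖l‖ + 1) * ‖f‖) := by
          have := hb.un a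
          gcongr
      _ = _ := by ring
  · intro i k
    rw [h0, delta_apply, ge, ge, map_zero, map_zero]
    by_cases hik : i = k
    · subst hik; rw [he.idem, ge]; simp
    · rw [he.orth i k hik]; simp
  · intro i k
    rw [h0, delta_apply, ge, gj, map_zero]
    by_cases hik : i = k
    · subst hik; rw [hej, gj, led]; simp
    · rw [hejo i k hik, ledo i k hik]; simp
  · intro i k
    rw [h0', delta_apply, ge, gj, map_zero]
    by_cases hik : i = k
    · subst hik; rw [hb.je, gj, red]; simp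
    · rw [mul_comm, hejo k i (Ne.symm hik), redo' k i (Ne.symm hik)]; simp
  · intro i k
    rw [delta_apply, gj, gj]
    by_cases hik : i = k
    · subst hik; rw [hb.jj, gj, key]
    · rw [hjjo i k hik, ljdo i k hik, rjdo k i (Ne.symm hik)]
      have : f (j i) (j k) = 0 := by
        rw [← hb.je i, hmf, hejo i k hik, map_zero]
      rw [this]; simp

/-- the constant -/
noncomputable def cst (L R F : ℝ) : ℝ :=
  L * F + R * (F + (L + 1 + R) * (L * F)) +
    (2 * L + 1) * (F + (L + 1 + R) * (L * F) + (L + 1 + R) * (R * (F + (L + 1 + R) * (L * F))))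

theorem level_solve (h : IsBi l r) {f : A →L[ℂ] A →L[ℂ] X} (hf : IsCo l r f)
    (hul : ∀ a b, l 1 (f a b) = f a b) (hur : ∀ a b, r 1 (f a b) = f a b)
    {e j : ι → A} {u : ι → A →L[ℂ] ℂ} (he : IsRes e) (hb : IsBlk e j u) :
    ∃ S : A →L[ℂ] X, ‖S‖ ≤ cst ‖l‖ ‖r‖ ‖f‖ ∧
      ∀ a ∈ Submodule.span ℂ (Set.range e ∪ Set.range j),
      ∀ b ∈ Submodule.span ℂ (Set.range e ∪ Set.range j),
        f a b = l a (S b) - S (a * b) + r b (S a) := by
  obtain ⟨g, gn, g1, g2⟩ := left_norm h hf hul he
  have hf1 : IsCo l r (f - delta l r g) := hf.sub (h.co_delta g)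
  have hn1 : ‖f - delta l r g‖ ≤ ‖f‖ + (‖l‖ + 1 + ‖r‖) * (‖l‖ * ‖f‖) := by
    refine (norm_sub_le f (delta l r g)).trans ?_
    have := norm_delta_le l r g
    have h2 : (‖l‖ + 1 + ‖r‖) * ‖g‖ ≤ (‖l‖ + 1 + ‖r‖) * (‖l‖ * ‖f‖) := by gcongr
    linarith
  have gr : ∀ a, r 1 (g a) = g a := by
    intro a
    rw [g2, map_sum]
    apply Finset.sum_congr rfl
    intro i _
    rw [← h.hlr, hur]
  have hur1 : ∀ a b, r 1 ((f - delta l r g) a b) = (f - delta l r g) a b := by
    intro a b
    simp only [ContinuousLinearMap.sub_apply, delta_apply, map_sub, map_add]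
    rw [hur, ← h.hlr, gr, gr, ← h.hr, mul_one]
  have h01 : ∀ k a, (f - delta l r g) (e k) a = 0 := by
    intro k a
    rw [ContinuousLinearMap.sub_apply, ContinuousLinearMap.sub_apply, g1, sub_self]
  obtain ⟨g', gn', g1', g2'⟩ := right_norm h hf1 hur1 he h01
  set f1 := f - delta l r g with hf1def
  have hf2 : IsCo l r (f1 - delta l r g') := hf1.sub (h.co_delta g')
  have hn2 : ‖f1 - delta l r g'‖ ≤ ‖f1‖ + (‖l‖ + 1 + ‖r‖) * (‖r‖ * ‖f1‖) := by
    refine (norm_sub_le f1 (delta l r g')).trans ?_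
    have := norm_delta_le l r g'
    have h2 : (‖l‖ + 1 + ‖r‖) * ‖g'‖ ≤ (‖l‖ + 1 + ‖r‖) * (‖r‖ * ‖f1‖) := by gcongr
    linarith
  obtain ⟨D, Dn, D1, D2, D3, D4⟩ := diag_solve h hf2 he hb
    (fun k a => by
      rw [ContinuousLinearMap.sub_apply, ContinuousLinearMap.sub_apply, h01, g2', sub_self])
    (fun a k => by
      rw [ContinuousLinearMap.sub_apply, ContinuousLinearMap.sub_apply, g1', sub_self])
  refine ⟨g + g' + D, ?_, ?_⟩
  · have t1 : ‖g + g' + D‖ ≤ ‖g‖ + ‖g'‖ + ‖D‖ :=
      (norm_add_le _ _).trans (add_le_add (norm_add_le _ _) le_rfl)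
    have t2 : ‖g'‖ ≤ ‖r‖ * (‖f‖ + (‖l‖ + 1 + ‖r‖) * (‖l‖ * ‖f‖)) :=
      gn'.trans (by gcongr)
    have t3 : ‖D‖ ≤ (2 * ‖l‖ + 1) * ((‖f‖ + (‖l‖ + 1 + ‖r‖) * (‖l‖ * ‖f‖)) +
        (‖l‖ + 1 + ‖r‖) * (‖r‖ * (‖f‖ + (‖l‖ + 1 + ‖r‖) * (‖l‖ * ‖f‖)))) := by
      refine Dn.trans ?_
      gcongr
      refine hn2.trans ?_
      gcongr
    unfold cst
    linarith
  · have base : ∀ a ∈ Set.range e ∪ Set.range j, ∀ b ∈ Set.range e ∪ Set.range j,
        f a b = delta l r (g + g' + D) a b := by
      have split : ∀ a b, (f1 - delta l r g') a b = delta l r D a b →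
          f a b = delta l r (g + g' + D) a b := by
        intro a b hab
        rw [hf1def] at hab
        simp only [ContinuousLinearMap.sub_apply, delta_apply] at hab
        simp only [delta_apply, ContinuousLinearMap.add_apply, map_add]
        have : f a b = (f a b - (l a (g b) - g (a * b) + r b (g a)) -
          (l a (g' b) - g' (a * b) + r b (g' a))) + (l a (g b) - g (a * b) + r b (g a)) +
          (l a (g' b) - g' (a * b) + r b (g' a)) := by abel
        rw [this, hab]
        abel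
      rintro a (⟨i, rfl⟩ | ⟨i, rfl⟩) b (⟨k, rfl⟩ | ⟨k, rfl⟩)
      · exact split _ _ (D1 i k)
      · exact split _ _ (D2 i k)
      · exact split _ _ (D3 i k)
      · exact split _ _ (D4 i k)
    intro a ha b hb'
    have : f a b = delta l r (g + g' + D) a b := by
      induction ha using Submodule.span_induction with
      | mem a ha =>
        induction hb' using Submodule.span_induction with
        | mem b hb => exact base a ha b hb
        | zero => simp
        | add b b' _ _ h1 h2 => rw [map_add, map_add, h1, h2]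
        | smul c b _ h1 => rw [map_smul, map_smul, h1]
      | zero => simp
      | add b b' _ _ h1 h2 => rw [map_add, map_add, ContinuousLinearMap.add_apply,
          ContinuousLinearMap.add_apply, h1, h2]
      | smul c b _ h1 => rw [map_smul, map_smul, ContinuousLinearMap.smul_apply,
          ContinuousLinearMap.smul_apply, h1]
    rw [this, delta_apply]

end level

/-- reduction to cocycles with unital values -/
theorem unital_part (h : IsBi l r) {f : A →L[ℂ] A →L[ℂ] X} (hf : IsCo l r f) :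
    ∃ S : A →L[ℂ] X, (∀ a b, l 1 ((f - delta l r S) a b) = (f - delta l r S) a b) ∧
      (∀ a b, r 1 ((f - delta l r S) a b) = (f - delta l r S) a b) := by
  have l11 : ∀ x, l 1 (l 1 x) = l 1 x := fun x => by rw [← h.hl, mul_one]
  have r11 : ∀ x, r 1 (r 1 x) = r 1 x := fun x => by rw [← h.hr, mul_one]
  -- left step
  set g : A →L[ℂ] X := (l 1).comp (f 1) - f 1 with hg
  have hg' : ∀ a, g a = l 1 (f 1 a) - f 1 a := fun a => rfl
  have key : ∀ a b, (f - delta l r g) a b = l 1 (f a b) := by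
    intro a b
    simp only [ContinuousLinearMap.sub_apply, delta_apply, hg', map_sub]
    have h1 := hf 1 a b
    rw [one_mul] at h1
    have h2 : f 1 (a * b) = f a b - l 1 (f a b) + r b (f 1 a) := by
      have : f 1 (a * b) = (l 1 (f a b) - f a b + f 1 (a * b) - r b (f 1 a)) + f a b -
        l 1 (f a b) + r b (f 1 a) := by abel
      rw [this, h1]; abel
    rw [h2]
    simp only [map_add, map_sub, l11]
    rw [h.hlr 1 b, ← h.hl a 1, mul_one]
    abel
  have hf1 : IsCo l r (f - delta l r g) := hf.sub (h.co_delta g)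
  set f1 := f - delta l r g with hf1def
  set g' : A →L[ℂ] X := (r 1).comp (f1.flip 1) - f1.flip 1 with hg1
  have hg1' : ∀ a, g' a = r 1 (f1 a 1) - f1 a 1 := fun a => rfl
  have key' : ∀ a b, (f1 - delta l r g') a b = r 1 (f1 a b) := by
    intro a b
    simp only [ContinuousLinearMap.sub_apply, delta_apply, hg1', map_sub]
    have h1 := hf1 a b 1
    rw [mul_one] at h1
    have h2 : f1 (a * b) 1 = l a (f1 b 1) + f1 a b - r 1 (f1 a b) := by
      have : f1 (a * b) 1 = -(l a (f1 b 1) - f1 (a * b) 1 + f1 a b - r 1 (f1 a b)) +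
        (l a (f1 b 1) + f1 a b - r 1 (f1 a b)) := by abel
      rw [this, h1]; abel
    rw [h2]
    simp only [map_add, map_sub, r11]
    rw [← h.hlr a 1, ← h.hr 1 b, one_mul]
    abel
  refine ⟨g + g', ?_, ?_⟩
  · intro a b
    have e : (f - delta l r (g + g')) a b = (f1 - delta l r g') a b := by
      rw [hf1def]
      simp only [ContinuousLinearMap.sub_apply, delta_apply, ContinuousLinearMap.add_apply,
        map_add]
      abel
    rw [e, key', key, h.hlr, l11]
  · intro a b
    have e : (f - delta l r (g + g')) a b = (f1 - delta l r g') a b := by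
      rw [hf1def]
      simp only [ContinuousLinearMap.sub_apply, delta_apply, ContinuousLinearMap.add_apply,
        map_add]
      abel
    rw [e, key', r11]

end Pool.Agent.WBD
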