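import Mathlib
import Pool.Agent.WBD.Alg
import Pool.Agent.WBD.Cohom

set_option autoImplicit false

/-! The finite levels of `c ⋉ ℓ¹`. -/

namespace Pool.Agent.WBD

open scoped BigOperators Topology
open Filter OnePoint

/-- the level index of a point -/
def idx (N : ℕ) : OnePoint ℕ → Fin (N + 1) :=
  fun x => x.elim (Fin.last N) (fun n => if h : n < N then ⟨n, by omega⟩ else Fin.last N)

@[simp] theorem idx_infty (N : ℕ) : idx N (∞ : OnePoint ℕ) = Fin.last N := rfl
theorem idx_coe (N n : ℕ) : idx N (n : OnePoint ℕ) =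
    if h : n < N then ⟨n, by omega⟩ else Fin.last N := rfl
theorem idx_lt (N n : ℕ) (h : n < N) : idx N (n : OnePoint ℕ) = ⟨n, by omega⟩ := by
  rw [idx_coe, dif_pos h]
theorem idx_ge (N n : ℕ) (h : N ≤ n) : idx N (n : OnePoint ℕ) = Fin.last N := by
  rw [idx_coe, dif_neg (by omega)]

/-- a function on the level gives an element of `c` -/
noncomputable def lvl (N : ℕ) (w : Fin (N + 1) → ℂ) : CC where
  toFun x := w (idx N x)
  continuous_toFun := by
    rw [OnePoint.continuous_iff_from_nat]
    refine tendsto_const_nhds.congr' ?_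
    filter_upwards [eventually_ge_atTop N] with n hn
    rw [idx_infty, idx_ge N n hn]

@[simp] theorem lvl_apply (N : ℕ) (w : Fin (N + 1) → ℂ) (x : OnePoint ℕ) :
    lvl N w x = w (idx N x) := rfl

theorem lvl_norm (N : ℕ) (w : Fin (N + 1) → ℂ) (C : ℝ) (hC : 0 ≤ C) (h : ∀ i, ‖w i‖ ≤ C) :
    ‖lvl N w‖ ≤ C := by
  rw [ContinuousMap.norm_le _ hC]
  intro x
  exact h _

/-- the idempotents of the level -/
noncomputable def eN (N : ℕ) (i : Fin (N + 1)) : AA := AA.mk (lvl N (Pi.single i 1)) 0

/-- the small idempotents -/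
noncomputable def jN (N : ℕ) (i : Fin (N + 1)) : AA :=
  if (i : ℕ) < N then AA.mk 0 (lp.single 1 (i : ℕ) (1 : ℂ)) else 0

/-- coordinate functional -/
noncomputable def coord (n : ℕ) : AA →L[ℂ] ℂ :=
  LinearMap.mkContinuous
    { toFun := fun x => x.q n
      map_add' := fun x y => rfl
      map_smul' := fun c x => rfl } 1
    (by
      intro x
      change ‖x.q n‖ ≤ 1 * ‖x‖
      rw [AA.norm_def]
      have := LL_bound x.q n
      have := norm_nonneg x.p
      linarith)

@[simp] theorem coord_apply (n : ℕ) (x : AA) : coord n x = x.q n := rfl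

/-- the functionals of the level -/
noncomputable def uN (N : ℕ) (i : Fin (N + 1)) : AA →L[ℂ] ℂ :=
  if (i : ℕ) < N then coord i else 0

theorem AA.ext_pt {x y : AA} (h1 : ∀ t, x.p t = y.p t) (h2 : ∀ n, x.q n = y.q n) : x = y :=
  AA.ext' (by ext t; exact h1 t) h2

theorem AA.p_sum {ι : Type*} (s : Finset ι) (f : ι → AA) :
    (∑ i ∈ s, f i).p = ∑ i ∈ s, (f i).p := by
  classical
  induction s using Finset.induction_on with
  | empty => simp
  | insert a s ha ih => rw [Finset.sum_insert ha, Finset.sum_insert ha, AA.p_add, ih]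

theorem AA.q_sum {ι : Type*} (s : Finset ι) (f : ι → AA) :
    (∑ i ∈ s, f i).q = ∑ i ∈ s, (f i).q := by
  classical
  induction s using Finset.induction_on with
  | empty => simp
  | insert a s ha ih => rw [Finset.sum_insert ha, Finset.sum_insert ha, AA.q_add, ih]

theorem LL_sum {ι : Type*} (s : Finset ι) (f : ι → LL) (n : ℕ) :
    (∑ i ∈ s, f i) n = ∑ i ∈ s, (f i n) := by
  classical
  induction s using Finset.induction_on with
  | empty => simp
  | insert a s ha ih => rw [Finset.sum_insert ha, Finset.sum_insert ha, LL_add, ih]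

@[simp] theorem eN_p (N : ℕ) (i : Fin (N + 1)) (t : OnePoint ℕ) :
    (eN N i).p t = if idx N t = i then 1 else 0 := by
  simp [eN, Pi.single_apply]
@[simp] theorem eN_q (N : ℕ) (i : Fin (N + 1)) : (eN N i).q = 0 := rfl

@[simp] theorem jN_p (N : ℕ) (i : Fin (N + 1)) : (jN N i).p = 0 := by
  unfold jN; split_ifs <;> simp
@[simp] theorem jN_q (N : ℕ) (i : Fin (N + 1)) (n : ℕ) :
    (jN N i).q n = if (i : ℕ) < N ∧ n = i then 1 else 0 := by
  unfold jN
  by_cases h : (i : ℕ) < N
  · simp only [h, if_true, AA.q_mk, true_and]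
    by_cases h2 : n = i
    · subst h2; simp
    · rw [if_neg h2, lp.single_apply_ne _ _ _ h2]
  · simp [h]

theorem isRes (N : ℕ) : IsRes (eN N) := by
  refine ⟨?_, ?_, ?_, ?_⟩
  · intro i
    apply AA.ext_pt
    · intro t
      rw [AA.p_mul, ContinuousMap.mul_apply, eN_p]
      split_ifs <;> simp
    · intro n; simp
  · intro i k hik
    apply AA.ext_pt
    · intro t
      rw [AA.p_mul, ContinuousMap.mul_apply, eN_p, eN_p]
      by_cases h : idx N t = i
      · have : idx N t ≠ k := by rw [h]; exact hik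
        simp [h, this, hik]
      · simp [h]
    · intro n; simp
  · apply AA.ext_pt
    · intro t
      rw [AA.p_sum, ContinuousMap.sum_apply]
      simp
    · intro n
      rw [AA.q_sum]
      simp
  · intro ε hε
    have hq : (∑ i, ε i • eN N i).q = 0 := by
      rw [AA.q_sum]; simp
    have hp : (∑ i, ε i • eN N i).p = lvl N ε := by
      ext t
      rw [AA.p_sum, ContinuousMap.sum_apply]
      simp
    rw [AA.norm_def, hq, hp, norm_zero, add_zero]
    apply lvl_norm _ _ _ zero_le_one
    intro i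
    rcases hε i with h | h <;> simp [h]

theorem isBlk (N : ℕ) : IsBlk (eN N) (jN N) (uN N) := by
  refine ⟨?_, ?_, ?_, ?_, ?_, ?_, ?_⟩
  · intro i
    apply AA.ext_pt
    · intro t; simp
    · intro n
      rw [AA.q_mul]
      simp only [jN_q, eN_q, LL_zero, mul_zero, zero_add, add_zero]
      by_cases h : (i : ℕ) < N ∧ n = i
      · obtain ⟨h1, h2⟩ := h
        subst h2
        have : ev (eN N i).p i = 1 := by
          unfold ev
          rw [eN_p, idx_lt _ _ h1]
          simp
        rw [this]; simp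
      · simp [h]
  · intro i
    apply AA.ext_pt
    · intro t; simp
    · intro n
      rw [AA.q_mul]
      simp only [jN_q, jN_p, ev_zero]
      by_cases h : (i : ℕ) < N ∧ n = i <;> simp [h]
  · intro i
    unfold jN
    split_ifs
    · rw [AA.norm_def]
      simp only [AA.p_mk, AA.q_mk, norm_zero, zero_add]
      rw [lp.norm_single (by simp)]
      simp
    · simp
  · intro i k
    unfold uN
    split_ifs <;> simp
  · intro i k hik
    unfold uN
    split_ifs with h
    · rw [coord_apply, jN_q, if_neg]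
      rintro ⟨_, h2⟩
      exact hik (Fin.ext h2)
    · simp
  · intro k
    by_cases h : (k : ℕ) < N
    · left
      unfold uN
      rw [if_pos h, coord_apply, jN_q, if_pos ⟨h, rfl⟩]
    · right
      unfold jN
      rw [if_neg h]
  · intro a
    have h1 : ∀ i : Fin (N + 1), ‖uN N i a‖ ≤ ‖a.q (i : ℕ)‖ := by
      intro i
      unfold uN
      split_ifs
      · simp
      · simp
    calc ∑ i, ‖uN N i a‖ ≤ ∑ i : Fin (N + 1), ‖a.q (i : ℕ)‖ := Finset.sum_le_sum fun i _ => h1 i
      _ = ∑ n ∈ Finset.range (N + 1), ‖a.q n‖ := by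
          rw [Finset.sum_range]
      _ ≤ ∑' n, ‖a.q n‖ := (summable_LL a.q).sum_le_tsum _ (fun _ _ => norm_nonneg _)
      _ = ‖a.q‖ := (norm_LL _).symm
      _ ≤ ‖a‖ := by
          rw [AA.norm_def]
          have := norm_nonneg a.p
          linarith

/-- representative points -/
def pt (N : ℕ) (i : Fin (N + 1)) : OnePoint ℕ := if (i : ℕ) < N then ((i : ℕ) : OnePoint ℕ) else ∞

/-- truncation -/
noncomputable def trunc (N : ℕ) (x : AA) : AA :=
  ∑ i : Fin (N + 1), (x.p (pt N i)) • eN N i + ∑ i : Fin (N + 1), (x.q (i : ℕ)) • jN N i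

theorem trunc_mem (N : ℕ) (x : AA) :
    trunc N x ∈ Submodule.span ℂ (Set.range (eN N) ∪ Set.range (jN N)) := by
  apply Submodule.add_mem
  · apply Submodule.sum_mem
    intro i _
    apply Submodule.smul_mem
    apply Submodule.subset_span
    left; exact ⟨i, rfl⟩
  · apply Submodule.sum_mem
    intro i _
    apply Submodule.smul_mem
    apply Submodule.subset_span
    right; exact ⟨i, rfl⟩

theorem trunc_p (N : ℕ) (x : AA) (t : OnePoint ℕ) : (trunc N x).p t = x.p (pt N (idx N t)) := by
  unfold trunc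
  rw [AA.p_add, AA.p_sum, AA.p_sum]
  simp [ContinuousMap.sum_apply]

theorem trunc_q (N : ℕ) (x : AA) (n : ℕ) : (trunc N x).q n = if n < N then x.q n else 0 := by
  unfold trunc
  rw [AA.q_add, AA.q_sum, AA.q_sum, LL_add, LL_sum, LL_sum]
  simp only [AA.q_smul, eN_q, smul_zero, LL_zero, Finset.sum_const_zero, zero_add, LL_smul, jN_q]
  by_cases h : n < N
  · rw [if_pos h, Finset.sum_eq_single (⟨n, by omega⟩ : Fin (N + 1))]
    · simp [h]
    · intro i _ hi
      rw [if_neg, mul_zero]
      rintro ⟨_, h2⟩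
      exact hi (Fin.ext h2.symm)
    · simp
  · rw [if_neg h]
    apply Finset.sum_eq_zero
    intro i _
    rw [if_neg, mul_zero]
    rintro ⟨h1, h2⟩
    omega

theorem trunc_tendsto (x : AA) : Tendsto (fun N => trunc N x) atTop (𝓝 x) := by
  rw [tendsto_iff_norm_sub_tendsto_zero]
  rw [Metric.tendsto_atTop]
  intro δ hδ
  have hc : Tendsto (fun n : ℕ => x.p (n : OnePoint ℕ)) atTop (𝓝 (x.p ∞)) :=
    (OnePoint.continuous_iff_from_nat _).1 x.p.continuous
  rw [Metric.tendsto_atTop] at hc
  obtain ⟨N1, hN1⟩ := hc (δ / 3) (by positivity)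
  have ht : Tendsto (fun N => ∑' n, ‖x.q (n + N)‖) atTop (𝓝 0) :=
    tendsto_sum_nat_add fun n => ‖x.q n‖
  rw [Metric.tendsto_atTop] at ht
  obtain ⟨N2, hN2⟩ := ht (δ / 3) (by positivity)
  refine ⟨max N1 N2, ?_⟩
  intro N hN
  have hn1 : N1 ≤ N := (le_max_left _ _).trans hN
  have hn2 : N2 ≤ N := (le_max_right _ _).trans hN
  rw [Real.dist_eq, sub_zero, abs_of_nonneg (norm_nonneg _), AA.norm_def]
  have hp : ‖(trunc N x - x).p‖ ≤ δ / 3 := by
    rw [ContinuousMap.norm_le _ (by positivity)]
    intro t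
    rw [AA.p_sub, ContinuousMap.sub_apply, trunc_p]
    induction t using OnePoint.rec with
    | infty => simp [pt]; positivity
    | coe n =>
      by_cases h : n < N
      · rw [idx_lt _ _ h]
        simp [pt, h]; positivity
      · rw [idx_ge _ _ (by omega)]
        simp only [pt, Fin.val_last, lt_irrefl, if_false]
        have := hN1 n (by omega)
        rw [dist_comm, dist_eq_norm] at this
        exact this.le
  have hq : ‖(trunc N x - x).q‖ ≤ δ / 3 := by
    rw [norm_LL, ← Summable.sum_add_tsum_nat_add N (summable_LL _)]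
    have h1 : ∑ i ∈ Finset.range N, ‖(trunc N x - x).q i‖ = 0 := by
      apply Finset.sum_eq_zero
      intro i hi
      have hi' := Finset.mem_range.1 hi
      have : (trunc N x - x).q i = (trunc N x).q i - x.q i := rfl
      rw [this, trunc_q, if_pos hi']
      simp
    have h2 : ∀ i, ‖(trunc N x - x).q (i + N)‖ = ‖x.q (i + N)‖ := by
      intro i
      have : (trunc N x - x).q (i + N) = (trunc N x).q (i + N) - x.q (i + N) := rfl
      rw [this, trunc_q, if_neg (by omega), zero_sub, norm_neg]
    rw [h1, zero_add]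
    simp_rw [h2]
    have := hN2 N hn2
    rw [Real.dist_eq, sub_zero, abs_of_nonneg (tsum_nonneg fun _ => norm_nonneg _)] at this
    exact this.le
  linarith

end Pool.Agent.WBD
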