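import Mathlib
import Pool.Agent.WBD.Level

set_option autoImplicit false
set_option maxSynthPendingDepth 3

/-! `c ⋉ ℓ¹` is a function algebra and is not amenable. -/

namespace Pool.Agent.WBD

open scoped BigOperators Topology
open Filter OnePoint

theorem tendsto_ev (a : CC) : Tendsto (ev a) atTop (𝓝 (a ∞)) :=
  (OnePoint.continuous_iff_from_nat _).1 a.continuous

theorem tendsto_LL (u : LL) : Tendsto (fun n => u n) atTop (𝓝 0) :=
  tendsto_zero_iff_norm_tendsto_zero.2 (summable_LL u).tendsto_atTop_zero

theorem CC_ext {a b : CC} (h : ∀ n, ev a n = ev b n) (h' : a ∞ = b ∞) : a = b := by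
  ext t
  induction t using OnePoint.rec with
  | infty => exact h'
  | coe n => exact h n

/-- constructor of convergent sequences -/
noncomputable def mkC (f : ℕ → ℂ) (y : ℂ) (h : Tendsto f atTop (𝓝 y)) : CC :=
  OnePoint.continuousMapMkNat f y h

@[simp] theorem ev_mkC (f : ℕ → ℂ) (y : ℂ) (h : Tendsto f atTop (𝓝 y)) (n : ℕ) :
    ev (mkC f y h) n = f n := rfl
@[simp] theorem mkC_infty (f : ℕ → ℂ) (y : ℂ) (h : Tendsto f atTop (𝓝 y)) :
    (mkC f y h) ∞ = y := rfl

/-- point masses -/
noncomputable def dC (k : ℕ) : CC := mkC (Pi.single k 1) 0 (by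
  refine tendsto_const_nhds.congr' ?_
  filter_upwards [eventually_gt_atTop k] with n hn
  rw [Pi.single_eq_of_ne (by omega)])

@[simp] theorem ev_dC (k n : ℕ) : ev (dC k) n = if n = k then 1 else 0 := by
  simp [dC, Pi.single_apply]
@[simp] theorem dC_infty (k : ℕ) : dC k ∞ = 0 := rfl

/-- `ℓ¹ ⊆ c` -/
noncomputable def ofL (u : LL) : CC := mkC (fun n => u n) 0 (tendsto_LL u)

@[simp] theorem ev_ofL (u : LL) (n : ℕ) : ev (ofL u) n = u n := rfl
@[simp] theorem ofL_infty (u : LL) : ofL u ∞ = 0 := rfl

theorem norm_ofL (u : LL) : ‖ofL u‖ ≤ ‖u‖ := by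
  rw [ContinuousMap.norm_le _ (norm_nonneg _)]
  intro t
  induction t using OnePoint.rec with
  | infty => rw [ofL_infty, norm_zero]; exact norm_nonneg _
  | coe n => exact LL_bound u n

/-- values of the Gelfand map -/
noncomputable def gel (x : AA) (n : ℕ) : ℂ :=
  ev x.p (n / 2) + (if n % 2 = 0 then 0 else x.q (n / 2))

theorem tendsto_gel (x : AA) : Tendsto (gel x) atTop (𝓝 (x.p ∞)) := by
  have hd : Tendsto (fun n : ℕ => n / 2) atTop atTop := Nat.tendsto_div_const_atTop (by norm_num)
  have h1 : Tendsto (fun n : ℕ => ev x.p (n / 2)) atTop (𝓝 (x.p ∞)) := (tendsto_ev x.p).comp hd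
  have h2 : Tendsto (fun n : ℕ => (if n % 2 = 0 then 0 else x.q (n / 2) : ℂ)) atTop (𝓝 0) := by
    have h3 : Tendsto (fun n : ℕ => ‖x.q (n / 2)‖) atTop (𝓝 0) := by
      have := ((tendsto_LL x.q).comp hd).norm
      simpa using this
    refine squeeze_zero_norm (fun n => ?_) h3
    split_ifs
    · simp
    · exact le_rfl
  have h5 := h1.add h2
  rw [add_zero] at h5
  exact h5

/-- the embedding in a function algebra -/
noncomputable def phi : AA →ₐ[ℂ] CC where
  toFun x := mkC (gel x) (x.p ∞) (tendsto_gel x)
  map_one' := by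
    apply CC_ext
    · intro n; simp [gel]
    · simp
  map_zero' := by
    apply CC_ext
    · intro n; simp [gel]
    · simp
  map_add' x y := by
    apply CC_ext
    · intro n
      simp only [ev_mkC, gel, AA.p_add, ev_add, AA.q_add, LL_add]
      split_ifs <;> ring
    · simp
  map_mul' x y := by
    apply CC_ext
    · intro n
      simp only [ev_mkC, gel, AA.p_mul, ev_mul, AA.q_mul]
      split_ifs <;> ring
    · simp
  commutes' c := by
    rw [Algebra.algebraMap_eq_smul_one, Algebra.algebraMap_eq_smul_one]
    apply CC_ext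
    · intro n; simp [gel]
    · simp

theorem ev_phi (x : AA) (n : ℕ) : ev (phi x) n = gel x n := rfl
theorem phi_infty (x : AA) : phi x ∞ = x.p ∞ := rfl

theorem phi_inj : Function.Injective phi := by
  intro x y h
  have h0 : ∀ n, ev x.p n = ev y.p n := by
    intro n
    have := congrArg (fun g => ev g (2 * n)) h
    simp only [ev_phi, gel] at this
    have e1 : 2 * n / 2 = n := by omega
    have e2 : 2 * n % 2 = 0 := by omega
    rw [e1, e2] at this
    simpa using this
  apply AA.ext'
  · apply CC_ext h0
    have := congrArg (fun g : CC => g ∞) h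
    exact this
  · intro n
    have := congrArg (fun g => ev g (2 * n + 1)) h
    simp only [ev_phi, gel] at this
    have e1 : (2 * n + 1) / 2 = n := by omega
    have e2 : (2 * n + 1) % 2 = 1 := by omega
    rw [e1, e2, h0] at this
    simpa using this

theorem phi_sep (s t : OnePoint ℕ) (h : s ≠ t) : ∃ a : AA, phi a s ≠ phi a t := by
  have hval : ∀ (a : AA) (n : ℕ), phi a (n : OnePoint ℕ) = gel a n := fun a n => rfl
  induction s using OnePoint.rec with
  | infty =>
    induction t using OnePoint.rec with
    | infty => exact absurd rfl h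
    | coe m =>
      refine ⟨AA.mk (dC (m / 2)) 0, ?_⟩
      rw [phi_infty, hval]
      simp [gel]
  | coe k =>
    induction t using OnePoint.rec with
    | infty =>
      refine ⟨AA.mk (dC (k / 2)) 0, ?_⟩
      rw [phi_infty, hval]
      simp [gel]
    | coe m =>
      have hkm : k ≠ m := fun e => h (by rw [e])
      by_cases hd : k / 2 = m / 2
      · refine ⟨AA.mk 0 (lp.single 1 (m / 2) (1 : ℂ)), ?_⟩
        rw [hval, hval]
        simp only [gel, AA.p_mk, AA.q_mk, ev_zero, zero_add, hd, lp.single_apply_self]
        rcases Nat.mod_two_eq_zero_or_one k with h1 | h1 <;>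
          rcases Nat.mod_two_eq_zero_or_one m with h2 | h2
        · omega
        · simp [h1, h2]
        · simp [h1, h2]
        · omega
      · refine ⟨AA.mk (dC (k / 2)) 0, ?_⟩
        rw [hval, hval]
        have hd' : ¬ (m / 2 = k / 2) := fun e => hd e.symm
        simp [gel, hd']

/-- the two characters-valued projections -/
noncomputable def pi0 : AA →L[ℂ] CC :=
  LinearMap.mkContinuous
    { toFun := fun x => x.p
      map_add' := fun x y => rfl
      map_smul' := fun c x => rfl } 1
    (by
      intro x
      change ‖x.p‖ ≤ 1 * ‖x‖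
      rw [AA.norm_def]
      have := norm_nonneg x.q
      linarith)

/-- second projection -/
noncomputable def pi1 : AA →L[ℂ] CC :=
  LinearMap.mkContinuous
    { toFun := fun x => x.p + ofL x.q
      map_add' := fun x y => by
        apply CC_ext
        · intro n; simp; ring
        · simp
      map_smul' := fun c x => by
        apply CC_ext
        · intro n; simp
        · simp } 1
    (by
      intro x
      change ‖x.p + ofL x.q‖ ≤ 1 * ‖x‖
      rw [AA.norm_def, one_mul]
      exact (norm_add_le _ _).trans (add_le_add le_rfl (norm_ofL _)))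

theorem pi0_apply (x : AA) : pi0 x = x.p := rfl
theorem pi1_apply (x : AA) : pi1 x = x.p + ofL x.q := rfl

theorem pi0_mul (x y : AA) : pi0 (x * y) = pi0 x * pi0 y := rfl
theorem pi1_mul (x y : AA) : pi1 (x * y) = pi1 x * pi1 y := by
  simp only [pi1_apply]
  apply CC_ext
  · intro n; simp; ring
  · simp

theorem pair_summable (u : LL) (x : CC) : Summable fun n => u n * ev x n := by
  refine Summable.of_norm_bounded (g := fun n => ‖u n‖ * ‖x‖) ((summable_LL u).mul_right _) ?_
  intro n
  rw [norm_mul]
  exact mul_le_mul_of_nonneg_left (ev_bound x n) (norm_nonneg _)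

/-- the derivation -/
noncomputable def der : AA →L[ℂ] (CC →L[ℂ] ℂ) :=
  LinearMap.mkContinuous₂
    (LinearMap.mk₂ ℂ (fun a x => ∑' n, a.q n * ev x n)
      (by
        intro a b x
        rw [← (pair_summable a.q x).tsum_add (pair_summable b.q x)]
        congr 1; ext n; simp; ring)
      (by
        intro c a x
        rw [smul_eq_mul, ← tsum_mul_left]
        congr 1; ext n; simp; ring)
      (by
        intro a x y
        rw [← (pair_summable a.q x).tsum_add (pair_summable a.q y)]
        congr 1; ext n; simp; ring)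
      (by
        intro c a x
        rw [smul_eq_mul, ← tsum_mul_left]
        congr 1; ext n; simp; ring)) 1
    (by
      intro a x
      change ‖∑' n, a.q n * ev x n‖ ≤ _
      have h1 : ‖∑' n, a.q n * ev x n‖ ≤ ∑' n, ‖a.q n‖ * ‖x‖ := by
        refine tsum_of_norm_bounded ((summable_LL a.q).mul_right _).hasSum ?_
        intro n
        rw [norm_mul]
        exact mul_le_mul_of_nonneg_left (ev_bound x n) (norm_nonneg _)
      refine h1.trans ?_
      rw [tsum_mul_right, ← norm_LL, one_mul]
      have : ‖a.q‖ ≤ ‖a‖ := by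
        rw [AA.norm_def]
        have := norm_nonneg a.p
        linarith
      gcongr)

theorem der_apply (a : AA) (x : CC) : der a x = ∑' n, a.q n * ev x n := rfl

theorem der_rule (a b : AA) (x : CC) :
    der (a * b) x = der b (pi0 a * x) + der a (pi1 b * x) := by
  simp only [der_apply]
  rw [← (pair_summable b.q (pi0 a * x)).tsum_add (pair_summable a.q (pi1 b * x))]
  congr 1
  ext n
  simp only [AA.q_mul, ev_mul, pi0_apply, pi1_apply, ev_add, ev_ofL]
  ring

theorem not_inner : ¬ ∃ f : CC →L[ℂ] ℂ, ∀ (a : AA) (x : CC),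
    der a x = f (pi0 a * x) - f (pi1 a * x) := by
  rintro ⟨f, hf⟩
  have h1 : ∀ n, f (dC n) = -1 := by
    intro n
    have := hf (AA.mk 0 (lp.single 1 n (1 : ℂ))) (dC n)
    rw [der_apply] at this
    simp only [AA.q_mk, pi0_apply, pi1_apply, AA.p_mk, zero_mul, map_zero, zero_sub,
      zero_add] at this
    rw [tsum_eq_single n] at this
    · have e : ofL (lp.single 1 n (1 : ℂ)) * dC n = dC n := by
        apply CC_ext
        · intro k
          simp only [ev_mul, ev_ofL, ev_dC]
          by_cases hk : k = n
          · subst hk; simp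
          · simp [hk]
        · simp
      rw [e] at this
      simp only [lp.single_apply_self, ev_dC, if_true, mul_one] at this
      linear_combination this
    · intro k hk
      simp [hk]
  obtain ⟨N, hN⟩ := exists_nat_gt ‖f‖
  have h2 : f (∑ n ∈ Finset.range N, dC n) = -(N : ℂ) := by
    rw [map_sum, Finset.sum_congr rfl (fun n _ => h1 n)]
    simp
  have h3 : ‖∑ n ∈ Finset.range N, dC n‖ ≤ 1 := by
    rw [ContinuousMap.norm_le _ zero_le_one]
    intro t
    rw [ContinuousMap.sum_apply]
    induction t using OnePoint.rec with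
    | infty => simp
    | coe n =>
      have : ∀ k, dC k (n : OnePoint ℕ) = if n = k then 1 else 0 := fun k => ev_dC k n
      simp_rw [this]
      rw [Finset.sum_ite_eq]
      split_ifs <;> simp
  have h4 : ‖f (∑ n ∈ Finset.range N, dC n)‖ ≤ ‖f‖ * 1 :=
    (f.le_opNorm _).trans (mul_le_mul_of_nonneg_left h3 (norm_nonneg _))
  rw [h2, norm_neg, Complex.norm_natCast, mul_one] at h4
  linarith

end Pool.Agent.WBD
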