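import Mathlib
import Pool.Agent.WBD.Level

set_option autoImplicit false
set_option maxSynthPendingDepth 3

/-! Weak-star limits of bounded cochains; vanishing of `H²(A, E*)` for `A = c ⋉ ℓ¹`. -/

namespace Pool.Agent.WBD

open scoped Topology
open Filter

/-- a bounded sequence of maps into a dual space has a weak-star ultralimit -/
theorem ultralimit {A E : Type*} [NormedAddCommGroup A] [NormedSpace ℂ A]
    [NormedAddCommGroup E] [NormedSpace ℂ E] (S : ℕ → A →L[ℂ] (E →L[ℂ] ℂ)) (M : ℝ)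
    (hM : ∀ n, ‖S n‖ ≤ M) :
    ∃ T : A →L[ℂ] (E →L[ℂ] ℂ), ∀ a x,
      Tendsto (fun n => S n a x) (hyperfilter ℕ : Filter ℕ) (𝓝 (T a x)) := by
  have hb : ∀ n a x, ‖S n a x‖ ≤ M * ‖a‖ * ‖x‖ := by
    intro n a x
    refine ((S n).le_opNorm₂ a x).trans ?_
    have := hM n
    gcongr
  have hex : ∀ a x, ∃ z : ℂ, ‖z‖ ≤ M * ‖a‖ * ‖x‖ ∧
      Tendsto (fun n => S n a x) (hyperfilter ℕ : Filter ℕ) (𝓝 z) := by
    intro a x
    have hc : IsCompact (Metric.closedBall (0 : ℂ) (M * ‖a‖ * ‖x‖)) := isCompact_closedBall _ _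
    obtain ⟨z, hz, hz2⟩ := hc.ultrafilter_le_nhds
      ((hyperfilter ℕ : Ultrafilter ℕ).map (fun n => S n a x)) (by
        rw [Ultrafilter.coe_map]
        refine le_principal_iff.2 ?_
        refine mem_map.2 (Eventually.of_forall ?_)
        intro n
        simpa using hb n a x)
    refine ⟨z, by simpa using hz, ?_⟩
    rw [Ultrafilter.coe_map] at hz2
    exact hz2
  choose t ht1 ht2 using hex
  have uniq : ∀ {a x z}, Tendsto (fun n => S n a x) (hyperfilter ℕ : Filter ℕ) (𝓝 z) →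
      t a x = z := fun h => tendsto_nhds_unique (ht2 _ _) h
  refine ⟨LinearMap.mkContinuous₂ (LinearMap.mk₂ ℂ t ?_ ?_ ?_ ?_) M ?_, ?_⟩
  · intro a b x
    apply uniq
    simpa using (ht2 a x).add (ht2 b x)
  · intro c a x
    apply uniq
    simpa using (ht2 a x).const_mul c
  · intro a x y
    apply uniq
    simpa using (ht2 a x).add (ht2 a y)
  · intro c a x
    apply uniq
    simpa using (ht2 a x).const_mul c
  · intro a x
    exact ht1 a x
  · intro a x
    exact ht2 a x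

section dual

variable {A E : Type*} [NormedCommRing A] [NormedAlgebra ℂ A] [NormedAddCommGroup E]
  [NormedSpace ℂ E]

/-- the adjoint action `φ ↦ φ ∘ R a` -/
noncomputable def adj (R : A →L[ℂ] E →L[ℂ] E) : A →L[ℂ] (E →L[ℂ] ℂ) →L[ℂ] (E →L[ℂ] ℂ) :=
  (ContinuousLinearMap.compL ℂ E E ℂ).flip.comp R

@[simp] theorem adj_apply (R : A →L[ℂ] E →L[ℂ] E) (a : A) (f : E →L[ℂ] ℂ) (x : E) :
    adj R a f x = f (R a x) := rfl

theorem adj_isBi (L R : A →L[ℂ] E →L[ℂ] E)
    (hL : ∀ a b : A, L (a * b) = (L a).comp (L b))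
    (hR : ∀ a b : A, R (a * b) = (R b).comp (R a))
    (hLR : ∀ a b : A, (L a).comp (R b) = (R b).comp (L a)) :
    IsBi (adj R) (adj L) := by
  refine ⟨?_, ?_, ?_⟩
  · intro a b f
    ext x
    simp only [adj_apply]
    rw [hR]; rfl
  · intro a b f
    ext x
    simp only [adj_apply]
    rw [hL]; rfl
  · intro a b f
    ext x
    simp only [adj_apply]
    have := congrArg (fun g => g x) (hLR b a)
    simp only [ContinuousLinearMap.comp_apply] at this
    rw [this]

/-- the weak-star limit of level solutions solves the equation -/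
theorem vanish_unital (tr : ℕ → A → A) (htr : ∀ a, Tendsto (fun N => tr N a) atTop (𝓝 a))
    (hlvl : ∀ N : ℕ, ∃ (ι : Type) (_ : Fintype ι) (_ : DecidableEq ι) (e j : ι → A)
      (u : ι → A →L[ℂ] ℂ), IsRes e ∧ IsBlk e j u ∧
        ∀ a, tr N a ∈ Submodule.span ℂ (Set.range e ∪ Set.range j))
    (L R : A →L[ℂ] E →L[ℂ] E) (h : IsBi (adj R) (adj L))
    {f : A →L[ℂ] A →L[ℂ] (E →L[ℂ] ℂ)} (hf : IsCo (adj R) (adj L) f)
    (hul : ∀ a b, adj R 1 (f a b) = f a b) (hur : ∀ a b, adj L 1 (f a b) = f a b) :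
    ∃ S : A →L[ℂ] (E →L[ℂ] ℂ), ∀ a b, f a b = delta (adj R) (adj L) S a b := by
  have hlev : ∀ N : ℕ, ∃ S : A →L[ℂ] (E →L[ℂ] ℂ), ‖S‖ ≤ cst ‖adj R‖ ‖adj L‖ ‖f‖ ∧
      ∀ a b, f (tr N a) (tr N b) = delta (adj R) (adj L) S (tr N a) (tr N b) := by
    intro N
    obtain ⟨ι, i1, i2, e, j, u, he, hb, hm⟩ := hlvl N
    obtain ⟨S, h1, h2⟩ := level_solve h hf hul hur he hb
    exact ⟨S, h1, fun a b => h2 _ (hm a) _ (hm b)⟩
  choose S hS1 hS2 using hlev
  obtain ⟨T, hT⟩ := ultralimit S _ hS1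
  refine ⟨T, ?_⟩
  intro a b
  ext x
  set M := cst ‖adj R‖ ‖adj L‖ ‖f‖ with hM
  have hM0 : 0 ≤ M := (norm_nonneg _).trans (hS1 0)
  -- the error
  set D : ℕ → E →L[ℂ] ℂ := fun N => f a b - delta (adj R) (adj L) (S N) a b with hD
  have hDz : Tendsto D atTop (𝓝 0) := by
    set B : ℕ → A →L[ℂ] A →L[ℂ] (E →L[ℂ] ℂ) :=
      fun N => f - delta (adj R) (adj L) (S N) with hB
    have hBn : ∀ N, ‖B N‖ ≤ ‖f‖ + (‖adj R‖ + 1 + ‖adj L‖) * M := by
      intro N
      refine (norm_sub_le _ _).trans ?_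
      have h1 := norm_delta_le (adj R) (adj L) (S N)
      have h2 : (‖adj R‖ + 1 + ‖adj L‖) * ‖S N‖ ≤ (‖adj R‖ + 1 + ‖adj L‖) * M := by
        have := hS1 N
        gcongr
      linarith
    set C := ‖f‖ + (‖adj R‖ + 1 + ‖adj L‖) * M with hC
    have hC0 : 0 ≤ C := (norm_nonneg _).trans (hBn 0)
    have hzero : ∀ N, B N (tr N a) (tr N b) = 0 := by
      intro N
      have := hS2 N a b
      simp only [hB, ContinuousLinearMap.sub_apply]
      rw [this, sub_self]
    rw [tendsto_zero_iff_norm_tendsto_zero]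
    have ha := htr a
    have hb := htr b
    have hlim : Tendsto (fun N => C * ‖a - tr N a‖ * ‖b‖ + C * ‖tr N a‖ * ‖b - tr N b‖)
        atTop (𝓝 (C * ‖a - a‖ * ‖b‖ + C * ‖a‖ * ‖b - b‖)) := by
      apply Tendsto.add
      · exact ((tendsto_const_nhds.sub ha).norm.const_mul C).mul_const _
      · exact (ha.norm.const_mul C).mul (tendsto_const_nhds.sub hb).norm
    simp only [sub_self, norm_zero, mul_zero, zero_mul, add_zero] at hlim
    refine squeeze_zero (fun _ => norm_nonneg _) ?_ hlim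
    intro N
    have e : D N = B N (a - tr N a) b + B N (tr N a) (b - tr N b) := by
      have e1 : D N = B N a b := rfl
      have e2 : B N (a - tr N a) b = B N a b - B N (tr N a) b := by
        rw [map_sub]; rfl
      have e3 : B N (tr N a) (b - tr N b) = B N (tr N a) b := by
        rw [map_sub, hzero, sub_zero]
      rw [e1, e2, e3, sub_add_cancel]
    rw [e]
    refine (norm_add_le _ _).trans (add_le_add ?_ ?_)
    · refine ((B N).le_opNorm₂ _ _).trans ?_
      have := hBn N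
      gcongr
    · refine ((B N).le_opNorm₂ _ _).trans ?_
      have := hBn N
      gcongr
  have hhy : (hyperfilter ℕ : Filter ℕ) ≤ atTop := Nat.hyperfilter_le_atTop
  have h1 : Tendsto (fun N => D N x) (hyperfilter ℕ : Filter ℕ) (𝓝 0) := by
    have h2 : Tendsto (fun N => D N x) atTop (𝓝 ((0 : E →L[ℂ] ℂ) x)) :=
      ((ContinuousLinearMap.apply ℂ ℂ x).continuous.tendsto 0).comp hDz
    exact (h2.mono_left hhy)
  have h3 : Tendsto (fun N => D N x) (hyperfilter ℕ : Filter ℕ)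
      (𝓝 (f a b x - (T b (R a x) - T (a * b) x + T a (L b x)))) := by
    have e : ∀ N, D N x = f a b x - (S N b (R a x) - S N (a * b) x + S N a (L b x)) := by
      intro N; rfl
    simp_rw [e]
    exact tendsto_const_nhds.sub (((hT b (R a x)).sub (hT (a * b) x)).add (hT a (L b x)))
  have h4 := tendsto_nhds_unique h1 h3
  have : f a b x = T b (R a x) - T (a * b) x + T a (L b x) := by
    rw [eq_comm, sub_eq_zero] at h4
    exact h4
  rw [this]
  rfl

theorem vanish (tr : ℕ → A → A) (htr : ∀ a, Tendsto (fun N => tr N a) atTop (𝓝 a))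
    (hlvl : ∀ N : ℕ, ∃ (ι : Type) (_ : Fintype ι) (_ : DecidableEq ι) (e j : ι → A)
      (u : ι → A →L[ℂ] ℂ), IsRes e ∧ IsBlk e j u ∧
        ∀ a, tr N a ∈ Submodule.span ℂ (Set.range e ∪ Set.range j))
    (L R : A →L[ℂ] E →L[ℂ] E)
    (hL : ∀ a b : A, L (a * b) = (L a).comp (L b))
    (hR : ∀ a b : A, R (a * b) = (R b).comp (R a))
    (hLR : ∀ a b : A, (L a).comp (R b) = (R b).comp (L a))
    (T : A →L[ℂ] A →L[ℂ] (E →L[ℂ] ℂ))
    (hT : ∀ (a b c : A) (x : E),
      T b c (R a x) - T (a * b) c x + T a (b * c) x - T a b (L c x) = 0) :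
    ∃ S : A →L[ℂ] (E →L[ℂ] ℂ), ∀ (a b : A) (x : E),
      T a b x = S b (R a x) - S (a * b) x + S a (L b x) := by
  have h := adj_isBi L R hL hR hLR
  have hco : IsCo (adj R) (adj L) T := by
    intro a b c
    ext x
    exact hT a b c x
  obtain ⟨S0, h1, h2⟩ := unital_part h hco
  obtain ⟨S1, h3⟩ := vanish_unital tr htr hlvl L R h (hco.sub (h.co_delta S0)) h1 h2
  refine ⟨S0 + S1, ?_⟩
  intro a b x
  have h4 : T a b x - (S0 b (R a x) - S0 (a * b) x + S0 a (L b x)) =
      S1 b (R a x) - S1 (a * b) x + S1 a (L b x) := congrArg (fun g => g x) (h3 a b)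
  simp only [ContinuousLinearMap.add_apply]
  have : T a b x = (T a b x - (S0 b (R a x) - S0 (a * b) x + S0 a (L b x))) +
    (S0 b (R a x) - S0 (a * b) x + S0 a (L b x)) := by ring
  rw [this, h4]
  ring

end dual

end Pool.Agent.WBD
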